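import Pool.Agent.ZPK.StmtsR

/-!
# Squad ZPK, row BIN: the exact norm of `(1 + y) ^ (p ^ k) - 1 - y ^ (p ^ k)` (author helper23)
-/

set_option autoImplicit false

namespace Pool.Agent.ZPK.H23

open Pool.Agent.ZPT Pool.Agent.ZP3 Pool.Agent.ZPK

noncomputable section

theorem bin_nrm {p : ℕ} (hp : p.Prime) {K : Type} [NormedField K] [CharZero K]
    (hE : Ext p K) (N : ℕ) (hN : N ≠ 0) : ‖(N : K)‖ = ((p : ℝ)⁻¹) ^ (N.factorization p) := by
  have h := hE (N : ℚ)
  rw [Rat.cast_natCast] at h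
  rw [h, padicNorm.eq_zpow_of_nonzero (by exact_mod_cast hN), padicValRat.of_nat,
    ← Nat.factorization_def N hp]
  push_cast
  rw [zpow_neg, zpow_natCast, inv_pow]

theorem bin_sum_lt {K : Type} [NormedField K] [IsUltrametricDist K] (f : ℕ → K) (c : ℝ)
    (hc : 0 < c) (s : Finset ℕ) (h : ∀ i ∈ s, ‖f i‖ < c) : ‖∑ i ∈ s, f i‖ < c := by
  classical
  induction s using Finset.induction_on with
  | empty => simpa using hc
  | insert a s ha ih =>
    rw [Finset.sum_insert ha]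
    refine lt_of_le_of_lt (IsUltrametricDist.norm_add_le_max _ _) (max_lt ?_ ?_)
    · exact h a (Finset.mem_insert_self _ _)
    · exact ih fun i hi => h i (Finset.mem_insert_of_mem hi)

/-- **BIN** -/
theorem bin : BinStmt := by
  classical
  intro p hp K _ _ _ hE y k hr0 hr1 hk hh
  obtain ⟨r, hr⟩ : ∃ r : ℝ, r = ‖y‖ := ⟨_, rfl⟩
  obtain ⟨P, hP⟩ : ∃ P : ℝ, P = (p : ℝ)⁻¹ := ⟨_, rfl⟩
  rw [← hr] at hr0 hr1 hh ⊢
  rw [← hP] at hh ⊢
  have hp0 : (0 : ℝ) < (p : ℝ) := by exact_mod_cast hp.pos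
  have hP0 : 0 < P := by
    rw [hP]
    positivity
  have hp1 : 1 ≤ p := hp.one_lt.le
  -- the numbers `X j`
  have hstep : ∀ j, j + 1 ≤ k - 1 →
      P ^ (k - j) * r ^ (p ^ j) < P ^ (k - (j + 1)) * r ^ (p ^ (j + 1)) := by
    intro j hj
    have h1 : P < r ^ (p ^ (k - 2) * (p - 1)) := by
      rcases hh with h | h
      · omega
      · exact h
    have h2 : r ^ (p ^ (k - 2) * (p - 1)) ≤ r ^ (p ^ j * (p - 1)) := by
      refine pow_le_pow_of_le_one hr0.le hr1.le (Nat.mul_le_mul_right _ ?_)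
      exact Nat.pow_le_pow_right hp1 (by omega)
    have e1 : k - j = k - (j + 1) + 1 := by omega
    have e2 : p ^ (j + 1) = p ^ j + p ^ j * (p - 1) := by
      have h3 : p = 1 + (p - 1) := by omega
      calc p ^ (j + 1) = p ^ j * p := pow_succ _ _
        _ = p ^ j * (1 + (p - 1)) := by rw [← h3]
        _ = p ^ j + p ^ j * (p - 1) := by ring
    rw [e1, e2, pow_succ, pow_add]
    have h3 : 0 < P ^ (k - (j + 1)) * r ^ (p ^ j) := by positivity
    calc P ^ (k - (j + 1)) * P * r ^ (p ^ j) = (P ^ (k - (j + 1)) * r ^ (p ^ j)) * P := by ring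
      _ < (P ^ (k - (j + 1)) * r ^ (p ^ j)) * r ^ (p ^ j * (p - 1)) :=
          mul_lt_mul_of_pos_left (lt_of_lt_of_le h1 h2) h3
      _ = _ := by ring
  have hmono : ∀ d j, j + d = k - 1 →
      P ^ (k - j) * r ^ (p ^ j) ≤ P * r ^ (p ^ (k - 1)) ∧
        (0 < d → P ^ (k - j) * r ^ (p ^ j) < P * r ^ (p ^ (k - 1))) := by
    intro d
    induction d with
    | zero =>
      intro j hj
      have e1 : j = k - 1 := by omega
      have e2 : k - j = 1 := by omega
      rw [e2, e1, pow_one]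
      exact ⟨le_rfl, fun h => absurd h (lt_irrefl 0)⟩
    | succ d ih =>
      intro j hj
      have h1 := hstep j (by omega)
      have h2 := (ih (j + 1) (by omega)).1
      exact ⟨(lt_of_lt_of_le h1 h2).le, fun _ => lt_of_lt_of_le h1 h2⟩
  -- the terms
  have hterm : ∀ i, i ∈ Finset.Ico 1 (p ^ k) → i ≠ p ^ (k - 1) →
      ‖y ^ i * ((p ^ k).choose i : K)‖ < P * r ^ (p ^ (k - 1)) := by
    intro i hi hne
    rw [Finset.mem_Ico] at hi
    have hi0 : i ≠ 0 := by omega
    have hc0 : (p ^ k).choose i ≠ 0 := (Nat.choose_pos hi.2.le).ne'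
    rw [norm_mul, norm_pow, ← hr, bin_nrm hp hE _ hc0,
      Nat.factorization_choose_prime_pow hp hi.2.le hi0, ← hP]
    obtain ⟨j, hj⟩ : ∃ j, j = i.factorization p := ⟨_, rfl⟩
    rw [← hj]
    have hdvd : p ^ j ∣ i := by
      rw [hj]
      exact Nat.ordProj_dvd i p
    have hle : p ^ j ≤ i := Nat.le_of_dvd (by omega) hdvd
    have hjk : j < k := by
      have h1 : p ^ j < p ^ k := lt_of_le_of_lt hle hi.2
      exact (Nat.pow_lt_pow_iff_right hp.one_lt).1 h1
    obtain ⟨hm1, hm2⟩ := hmono (k - 1 - j) j (by omega)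
    have h3 : r ^ i ≤ r ^ (p ^ j) := pow_le_pow_of_le_one hr0.le hr1.le hle
    have h4 : r ^ i * P ^ (k - j) ≤ P ^ (k - j) * r ^ (p ^ j) := by
      rw [mul_comm]
      exact mul_le_mul_of_nonneg_left h3 (by positivity)
    by_cases hjk1 : j = k - 1
    · have hlt : p ^ j < i := by
        rcases Nat.lt_or_eq_of_le hle with h | h
        · exact h
        · exact absurd (by rw [← h, hjk1]) hne
      have h5 : r ^ i < r ^ (p ^ j) := pow_lt_pow_right_of_lt_one₀ hr0 hr1 hlt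
      have h6 : r ^ i * P ^ (k - j) < P ^ (k - j) * r ^ (p ^ j) := by
        rw [mul_comm]
        exact mul_lt_mul_of_pos_left h5 (by positivity)
      exact lt_of_lt_of_le h6 hm1
    · exact lt_of_le_of_lt h4 (hm2 (by omega))
  have hpk1 : p ^ (k - 1) < p ^ k := Nat.pow_lt_pow_right hp.one_lt (by omega)
  have hpk0 : 1 ≤ p ^ (k - 1) := Nat.one_le_pow _ _ hp1
  have hi0 : p ^ (k - 1) ∈ Finset.Ico 1 (p ^ k) := by
    rw [Finset.mem_Ico]
    exact ⟨hpk0, hpk1⟩
  have hmain : ‖y ^ (p ^ (k - 1)) * ((p ^ k).choose (p ^ (k - 1)) : K)‖ =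
      P * r ^ (p ^ (k - 1)) := by
    have hc0 : (p ^ k).choose (p ^ (k - 1)) ≠ 0 := (Nat.choose_pos hpk1.le).ne'
    rw [norm_mul, norm_pow, ← hr, bin_nrm hp hE _ hc0,
      Nat.factorization_choose_prime_pow hp hpk1.le (by omega), ← hP,
      Nat.factorization_pow_self hp]
    have e1 : k - (k - 1) = 1 := by omega
    rw [e1, pow_one, mul_comm]
  have hexp : (1 + y) ^ (p ^ k) - 1 - y ^ (p ^ k) =
      ∑ i ∈ Finset.Ico 1 (p ^ k), y ^ i * ((p ^ k).choose i : K) := by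
    have h1 : (1 + y) ^ (p ^ k) = ∑ i ∈ Finset.range (p ^ k + 1),
        y ^ i * ((p ^ k).choose i : K) := by
      rw [add_comm, add_pow]
      refine Finset.sum_congr rfl fun i _ => ?_
      rw [one_pow, mul_one]
    rw [h1, Finset.sum_range_succ, Finset.range_eq_Ico,
      Finset.sum_eq_sum_Ico_succ_bot (by omega : 0 < p ^ k)]
    simp
    ring
  rw [hexp, ← Finset.add_sum_erase _ _ hi0]
  have hpos : 0 < P * r ^ (p ^ (k - 1)) := by positivity
  have hrest : ‖∑ i ∈ (Finset.Ico 1 (p ^ k)).erase (p ^ (k - 1)),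
      y ^ i * ((p ^ k).choose i : K)‖ < P * r ^ (p ^ (k - 1)) := by
    refine bin_sum_lt _ _ hpos _ fun i hi => ?_
    rw [Finset.mem_erase] at hi
    exact hterm i hi.2 hi.1
  rw [IsUltrametricDist.norm_add_eq_max_of_norm_ne_norm (by rw [hmain]; exact hrest.ne'), hmain]
  exact max_eq_left hrest.le

end

end Pool.Agent.ZPK.H23
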